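import Mathlib
import Pool.Agent.Lib.MP30c94c.KAll

/-!
# The critical probability for `K_{s,t}`-bootstrap percolation, all `s, t ≥ 1`

`p_c(n, K_{s,t}) = f_{s,t}(n)` up to a polylogarithmic factor for all `s, t ≥ 1`, where
`f_{s,t}(n) = n^{-x}` with an explicit exponent `x` depending on `s`, `t`.
-/

open SimpleGraph Filter MP30c94c

namespace Pool.Agent.Results.MP_30c94c_pr.AllPairs

/-- The exponent `x_{s,t}`, for `1 ≤ s ≤ t`, `(s,t) ≠ (1,1)`. -/
noncomputable def expo (s t : ℕ) : ℝ :=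
  if s = 1 then (t : ℝ) / ((t : ℝ) - 1)
  else if s = 2 then
    if t ≤ 3 then 1
    else if Odd t then ((t : ℝ) ^ 2 - t + 2) / (2 * ((t : ℝ) - 1) ^ 2)
    else (2 * (t : ℝ) ^ 2 - 5 * t + 8) / (4 * (t : ℝ) ^ 2 - 14 * t + 18)
  else if s = 3 ∧ t = 5 then 1 / 2
  else if s = 3 ∧ t = 6 then 22 / 49
  else if s = 3 ∧ t = 7 then 11 / 26
  else ((s : ℝ) + t - 2) / ((s : ℝ) * t - 2)

/-- The function `f_{s,t}(n)`, for `s, t ≥ 1`. -/
noncomputable def f (s t n : ℕ) : ℝ :=
  if s = 1 ∧ t = 1 then 0 else (n : ℝ) ^ (-expo (min s t) (max s t))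

lemma order_le (s t : ℕ) (hs : 1 ≤ s) (hst : s ≤ t) (h : ¬ (s = 1 ∧ t = 1)) :
    Order s t (expo s t) := by
  unfold expo
  split_ifs with h1 h2 h3 h4 h5 h6 h7
  · subst h1
    exact order_star t (by omega)
  · subst h2
    exact order_two t (by omega)
  · subst h2
    have h5 := order_of_const (two_const t (by omega))
    unfold expo2 at h5
    rw [if_pos h4] at h5
    exact h5
  · subst h2
    have h5 := order_of_const (two_const t (by omega))
    unfold expo2 at h5
    rw [if_neg h4] at h5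
    exact h5
  · obtain ⟨rfl, rfl⟩ := h5
    exact two_sided_35
  · obtain ⟨rfl, rfl⟩ := h6
    have h8 := two_sided (Kst 3 6) 49 22 76 (by norm_num) (by norm_num) (by norm_num)
      (by norm_num) (Kst_deg (by norm_num) (by norm_num)) hull_36 hasGadgets_36
    have e : (((22 : ℕ) : ℝ) / ((49 : ℕ) : ℝ)) = 22 / 49 := by norm_num
    rw [e] at h8
    exact h8
  · obtain ⟨rfl, rfl⟩ := h7
    have h8 := two_sided (Kst 3 7) 26 11 41 (by norm_num) (by norm_num) (by norm_num)
      (by norm_num) (Kst_deg (by norm_num) (by norm_num)) hull_37 hasGadgets_37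
    have e : (((11 : ℕ) : ℝ) / ((26 : ℕ) : ℝ)) = 11 / 26 := by norm_num
    rw [e] at h8
    exact h8
  · exact two_sided_generic s t (by omega) hst h5 h6 h7

lemma pc_minmax (s t n : ℕ) : pc n (Kst (min s t) (max s t)) = pc n (Kst s t) := by
  rcases le_total s t with h | h
  · rw [min_eq_left h, max_eq_right h]
  · rw [min_eq_right h, max_eq_left h, pc_comm]

/-- The order of `p_c(n, K_{s,t})` up to polylogarithmic factors for all `s, t ≥ 1`. -/
theorem result (s t : ℕ) (hs : 1 ≤ s) (ht : 1 ≤ t) :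
    ∃ C : ℝ, 0 < C ∧ ∀ᶠ n : ℕ in atTop,
      f s t n * (Real.log n) ^ (-C) ≤ pc n (completeBipartiteGraph (Fin s) (Fin t)) ∧
      pc n (completeBipartiteGraph (Fin s) (Fin t)) ≤ f s t n * (Real.log n) ^ C := by
  by_cases h : s = 1 ∧ t = 1
  · obtain ⟨rfl, rfl⟩ := h
    refine ⟨1, one_pos, Eventually.of_forall fun n => ?_⟩
    have h1 := pc_K11 n
    have h2 : f 1 1 n = 0 := by simp [f]
    rw [h2, zero_mul, zero_mul]
    exact ⟨h1.ge, h1.le⟩
  · have hm : ¬ (min s t = 1 ∧ max s t = 1) := by omega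
    obtain ⟨C, hC, h1⟩ := order_le (min s t) (max s t) (by omega) (by omega) hm
    refine ⟨C, hC, ?_⟩
    filter_upwards [h1] with n h2
    rw [pc_minmax] at h2
    unfold f
    rw [if_neg h]
    exact h2

end Pool.Agent.Results.MP_30c94c_pr.AllPairs
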